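import Mathlib
import Pool.Agent.MP_6a61d2_nt.Fam

namespace Pool.Agent.Results.MP_6a61d2_nt.GenericRankOne

open RatFunc

/-- `u = 2 T (T ^ 2 + 6) (6 T ^ 2 + 1)`. -/
noncomputable def u : RatFunc ℚ := 2 * X * (X ^ 2 + 6) * (6 * X ^ 2 + 1)

/-- `v = (6 T ^ 2 + 1) ^ 2 - T ^ 2 (T ^ 2 + 6) ^ 2`. -/
noncomputable def v : RatFunc ℚ := (6 * X ^ 2 + 1) ^ 2 - X ^ 2 * (X ^ 2 + 6) ^ 2

/-- The curve `y ^ 2 = x (x + u ^ 4) (x + v ^ 4)` over `ℚ(T)`. -/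
noncomputable def curve : WeierstrassCurve (RatFunc ℚ) := ⟨0, u ^ 4 + v ^ 4, 0, u ^ 4 * v ^ 4, 0⟩

theorem result [DecidableEq (RatFunc ℚ)] :
    ∃ _ : curve.IsElliptic, (∀ c : ℚ, curve.j ≠ C c) ∧
      Nonempty (AddCommGroup.torsion curve.toAffine.Point ≃+ ZMod 2 × ZMod 8) ∧
      1 ≤ Module.rank ℤ curve.toAffine.Point := by
  obtain ⟨h1, h2, h3, h4⟩ := Pool.Agent.MP_6a61d2_nt.generic
  have h0 : curve.Δ ≠ 0 := h1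
  refine ⟨⟨h0.isUnit⟩, fun c h => h2 c ?_, h3, h4⟩
  change curve.c₄ ^ 3 = C c * curve.Δ
  rw [← h, WeierstrassCurve.j, Units.val_inv_eq_inv_val, WeierstrassCurve.coe_Δ']
  field_simp

end Pool.Agent.Results.MP_6a61d2_nt.GenericRankOne
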