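import Mathlib
import Pool.Agent.MP_6a61d2_nt.q2.Fld

namespace Pool.Agent.Results.MP_6a61d2_nt.QuadraticRankTwo

theorem result :
    {K : IntermediateField ℚ ℂ | Module.finrank ℚ K = 2 ∧
      {j : ℚ | ∃ (E : WeierstrassCurve ℚ) (_ : E.IsElliptic), E.j = j ∧
        Nonempty (AddCommGroup.torsion E.toAffine.Point ≃+ ZMod 2 × ZMod 8) ∧
        1 ≤ Module.rank ℤ E.toAffine.Point ∧
        Nonempty (AddCommGroup.torsion (E.baseChange K).toAffine.Point ≃+ ZMod 2 × ZMod 8) ∧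
        2 ≤ Module.rank ℤ (E.baseChange K).toAffine.Point}.Infinite}.Infinite :=
  Pool.Agent.MP_6a61d2_nt.quad_rank_two

end Pool.Agent.Results.MP_6a61d2_nt.QuadraticRankTwo
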